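import Mathlib

/-!
Project PL (MP_e2b059_co): every small hereditary class of graphs has labels of length
`O(log ^ 4 n)`: definitions and statements of the parts.
-/

set_option autoImplicit false

namespace Pool.Agent.W79.PL

open scoped Classical

/-- a class of graphs on the sets `Fin n`, closed under induced subgraphs (and isomorphism) -/
def Hered (P : (n : ℕ) → Set (SimpleGraph (Fin n))) : Prop :=
  ∀ (n m : ℕ) (e : Fin m ↪ Fin n) (G : SimpleGraph (Fin n)), G ∈ P n → G.comap e ∈ P m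

/-- small, with constant `c` -/
def SmallC (c : ℕ) (P : (n : ℕ) → Set (SimpleGraph (Fin n))) : Prop :=
  ∀ n : ℕ, (P n).ncard ≤ n.factorial * c ^ n

/-- the vertices that separate `a` and `b` -/
noncomputable def sep {V : Type} [Fintype V] (G : SimpleGraph V) (a b : V) : Finset V :=
  Finset.univ.filter (fun x => ¬ (G.Adj x a ↔ G.Adj x b))

/-- the set `Y` separates all the pairs of elements of `U` -/
def Sepd {V : Type} (G : SimpleGraph V) (Y U : Finset V) : Prop :=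
  ∀ a ∈ U, ∀ b ∈ U, a ≠ b → ∃ y ∈ Y, ¬ (G.Adj y a ↔ G.Adj y b)

/-- the number of changes of the row of `x` along a list -/
noncomputable def cg {V : Type} (G : SimpleGraph V) (x : V) : List V → ℕ
  | a :: b :: t => (if (G.Adj x a ↔ G.Adj x b) then 0 else 1) + cg G x (b :: t)
  | _ => 0

/-- distinct traces are counted by the class -/
def S_PI : Prop :=
  ∀ (c : ℕ) (P : (n : ℕ) → Set (SimpleGraph (Fin n))), Hered P → SmallC c P →
    ∀ (n : ℕ) (G : SimpleGraph (Fin n)), G ∈ P n → ∀ (Y X : Finset (Fin n)), Disjoint Y X →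
      Sepd G Y X → ∀ m ≤ X.card,
        X.card.descFactorial m ≤ (Y.card + m).factorial * c ^ (Y.card + m)

/-- the numerical consequence -/
def S_PIN : Prop :=
  ∀ c : ℕ, ∃ C : ℕ, ∀ k M : ℕ, 1 ≤ k →
    (∀ m ≤ M, M.descFactorial m ≤ (k + m).factorial * c ^ (k + m)) →
      M ≤ C * k * (Nat.log 2 k + 1)

/-- greedy sampling -/
def S_SAMP : Prop :=
  ∀ (V : Type) [Fintype V] (G : SimpleGraph V) (U : Finset V) (w : V → ℕ) (κ : ℕ),
    1 ≤ κ → κ ≤ U.card →
    (∀ a ∈ U, ∀ b ∈ U, a ≠ b → κ * ∑ x, w x < U.card * ∑ x ∈ sep G a b, w x) →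
      ∃ Y : Finset V, Y.card ≤ (2 * Nat.log 2 U.card + 2) * (U.card / κ + 1) ∧ Sepd G Y U

/-- a pair with light difference -/
def S_PAIR : Prop :=
  ∀ c : ℕ, ∃ K : ℕ, ∀ P : (n : ℕ) → Set (SimpleGraph (Fin n)), Hered P → SmallC c P →
    ∀ (n : ℕ) (G : SimpleGraph (Fin n)), G ∈ P n →
      ∀ (U : Finset (Fin n)) (w : Fin n → ℕ), 2 ≤ U.card →
        ∃ a ∈ U, ∃ b ∈ U, a ≠ b ∧
          U.card * ∑ x ∈ sep G a b, w x ≤ K * (Nat.log 2 U.card + 1) ^ 2 * ∑ x, w x

/-- inserting a vertex after another one -/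
def S_INS : Prop :=
  ∀ (V : Type) [Fintype V] (G : SimpleGraph V) (x a b : V) (l1 l2 : List V),
    cg G x (l1 ++ b :: a :: l2) ≤
      cg G x (l1 ++ b :: l2) + 2 * (if x ∈ sep G a b then 1 else 0)

/-- the reweighting argument -/
def S_PATH : Prop :=
  ∀ (V : Type) [Fintype V] (G : SimpleGraph V) (κ : ℕ),
    (∀ (U : Finset V) (w : V → ℕ), 2 ≤ U.card → ∃ a ∈ U, ∃ b ∈ U, a ≠ b ∧
      U.card * ∑ x ∈ sep G a b, w x ≤ κ * ∑ x, w x) →
    ∃ o : List V, o.Nodup ∧ (∀ v, v ∈ o) ∧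
      ∀ x, cg G x o ≤ 2 * ((κ + 1) * (Nat.log 2 (Fintype.card V) + 1))

/-- labels from an ordering with few changes; the decoder depends only on the three numbers -/
def S_LAB2 : Prop :=
  ∀ b κ L : ℕ, (κ + 2) * (b + 2) ≤ L → ∃ dec : List Bool → List Bool → Bool,
    ∀ n : ℕ, n ≤ 2 ^ b → ∀ (G : SimpleGraph (Fin n)) (o : List (Fin n)), o.Nodup →
      (∀ v, v ∈ o) → (∀ x, cg G x o ≤ κ) →
      ∃ l : Fin n → List Bool, Function.Injective l ∧ (∀ v, (l v).length = L) ∧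
        ∀ u v, u ≠ v → (G.Adj u v ↔ dec (l u) (l v) = true)

/-- the result -/
def S_FIN : Prop :=
  ∀ P : (n : ℕ) → Set (SimpleGraph (Fin n)), Hered P → (∃ c, SmallC c P) →
    ∃ (K : ℕ) (dec : List Bool → List Bool → Bool), ∀ (n : ℕ) (G : SimpleGraph (Fin n)),
      G ∈ P n → ∃ l : Fin n → List Bool, Function.Injective l ∧
        (∀ v, (l v).length = K * (Nat.log 2 n + 1) ^ 4) ∧
        ∀ u v, u ≠ v → (G.Adj u v ↔ dec (l u) (l v) = true)

end Pool.Agent.W79.PL
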